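import Pool.Agent.J4H2.PL.Lf

/-!
# Project PL: job KLTREG
-/

set_option autoImplicit false

open FF

namespace Pool.Agent.J4H2.PL

open Pool.Agent.W602.GT Pool.Agent.W603.LV Pool.Agent.J4H13.BC Pool.Agent.J4H13.PL

open scoped Classical in
lemma adapted' {n : ℕ} (N : ℕ) (F : ℕ → Submodule ℂ (VV n)) (hF : Antitone F) (hN : F N = ⊥) {r : ℕ}
    (hr : Module.finrank ℂ (F 0) = r + 1) :
    ∃ b : Fin (r + 1) → VV n, LinearIndependent ℂ b ∧ Submodule.span ℂ (Set.range b) = F 0 ∧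
      ∀ t, (Finset.univ.filter fun k => b k ∈ F t).card = Module.finrank ℂ (F t) := by
  obtain ⟨B, hB0, hB1, hB2⟩ := adapted N F hF hN
  have hsp : Submodule.span ℂ B = F 0 := by
    apply le_antisymm
    · exact Submodule.span_le.2 hB0
    · exact (hB2 0).trans (Submodule.span_mono Set.inter_subset_left)
  have hLI : LinearIndependent ℂ (fun x : B => (x : VV n)) := hB1
  have : Finite B := hLI.finite
  have : Fintype B := Fintype.ofFinite B
  have hcard : Fintype.card B = r + 1 := by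
    have h1 := finrank_span_eq_card hLI
    rw [Subtype.range_coe, hsp, hr] at h1
    exact h1.symm
  let e : Fin (r + 1) ≃ B := (Fintype.equivFinOfCardEq hcard).symm
  have hb : LinearIndependent ℂ fun k => ((e k : B) : VV n) := hLI.comp e e.injective
  have hrange : Set.range (fun k => ((e k : B) : VV n)) = B := by
    ext x
    constructor
    · rintro ⟨k, rfl⟩
      exact (e k).2
    · intro hx
      exact ⟨e.symm ⟨x, hx⟩, by simp⟩
  refine ⟨fun k => (e k : VV n), hb, by rw [hrange, hsp], fun t => ?_⟩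
  have h1 : LinearIndependent ℂ fun k : {k : Fin (r + 1) // ((e k : B) : VV n) ∈ F t} =>
      ((e k.1 : B) : VV n) := hb.comp (fun k : {k : Fin (r + 1) // ((e k : B) : VV n) ∈ F t} => k.1)
        Subtype.val_injective
  have h2 := finrank_span_eq_card h1
  have h3 : Submodule.span ℂ (Set.range fun k : {k : Fin (r + 1) // ((e k : B) : VV n) ∈ F t} =>
      ((e k.1 : B) : VV n)) = F t := by
    apply le_antisymm
    · rw [Submodule.span_le]
      rintro _ ⟨k, rfl⟩
      exact k.2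
    · refine (hB2 t).trans (Submodule.span_mono ?_)
      rintro x ⟨hxB, hxF⟩
      have h4 : ((e (e.symm ⟨x, hxB⟩) : B) : VV n) = x := by simp
      exact ⟨⟨e.symm ⟨x, hxB⟩, by rw [h4]; exact hxF⟩, h4⟩
  rw [h3] at h2
  rw [h2, Fintype.card_subtype]

lemma sum_ite_lt (N m : ℕ) (h : m ≤ N) :
    ∑ t ∈ Finset.range N, (if t + 1 ≤ m then 1 else 0) = m := by
  rw [← Finset.sum_filter, Finset.sum_const, smul_eq_mul, mul_one]
  have : (Finset.range N).filter (fun t => t + 1 ≤ m) = Finset.range m := by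
    ext t
    simp only [Finset.mem_filter, Finset.mem_range]
    omega
  rw [this, Finset.card_range]

open scoped Classical in
/-- the combinatorial core -/
lemma count_core {n : ℕ} (N : ℕ) (F : ℕ → Submodule ℂ (VV n)) (hN : F N = ⊥)
    (S : Finset (VV n)) (h0 : (0 : VV n) ∉ S)
    (hcount : ∀ t, F (t + 1) ≠ ⊥ →
      (S.filter fun l => l ∈ F (t + 1)).card + 1 ≤ 2 * Module.finrank ℂ (F (t + 1)))
    {r : ℕ} (b : Fin (r + 1) → VV n)
    (hb : ∀ t, (Finset.univ.filter fun k => b k ∈ F t).card = Module.finrank ℂ (F t))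
    (ν : VV n → ℕ) (hνb : ∀ k t, (b k ∈ F t ↔ t ≤ ν (b k)))
    (hνS : ∀ l ∈ S, ∀ t, (l ∈ F t ↔ t ≤ ν l)) (hb0 : ∀ k, b k ≠ 0) :
    (∑ l ∈ S, ν l) + (if ∃ k, 0 < ν (b k) then 1 else 0) ≤ 2 * ∑ k, ν (b k) := by
  have hle : ∀ v : VV n, v ≠ 0 → (∀ t, (v ∈ F t ↔ t ≤ ν v)) → ν v ≤ N := by
    intro v hv hvt
    by_contra hcon
    push Not at hcon
    have h1 : v ∈ F N := (hvt N).2 hcon.le
    rw [hN, Submodule.mem_bot] at h1
    exact hv h1
  have h1 : ∑ l ∈ S, ν l = ∑ t ∈ Finset.range N, (S.filter fun l => l ∈ F (t + 1)).card := by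
    simp_rw [Finset.card_filter]
    rw [Finset.sum_comm]
    refine Finset.sum_congr rfl fun l hl => ?_
    simp_rw [hνS l hl]
    exact (sum_ite_lt N _ (hle l (fun h => h0 (h ▸ hl)) (hνS l hl))).symm
  have h2 : ∑ k, ν (b k) = ∑ t ∈ Finset.range N,
      (Finset.univ.filter fun k => b k ∈ F (t + 1)).card := by
    simp_rw [Finset.card_filter]
    rw [Finset.sum_comm]
    refine Finset.sum_congr rfl fun k _ => ?_
    simp_rw [hνb k]
    exact (sum_ite_lt N _ (hle _ (hb0 k) (hνb k))).symm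
  have h3 : (if ∃ k, 0 < ν (b k) then 1 else 0) ≤
      ∑ t ∈ Finset.range N, (if F (t + 1) ≠ ⊥ then 1 else 0) := by
    split_ifs with h
    · obtain ⟨k, hk⟩ := h
      have h4 : b k ∈ F (0 + 1) := (hνb k _).2 hk
      have h5 : F (0 + 1) ≠ ⊥ := by
        intro h6
        rw [h6, Submodule.mem_bot] at h4
        exact hb0 k h4
      have h6 : 0 < N := lt_of_lt_of_le hk (hle _ (hb0 k) (hνb k))
      refine le_trans ?_ (Finset.single_le_sum (f := fun t => if F (t + 1) ≠ ⊥ then 1 else 0)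
        (fun _ _ => Nat.zero_le _) (Finset.mem_range.2 h6))
      rw [if_pos h5]
    · exact Nat.zero_le _
  have h4 : ∀ t, (S.filter fun l => l ∈ F (t + 1)).card + (if F (t + 1) ≠ ⊥ then 1 else 0) ≤
      2 * (Finset.univ.filter fun k => b k ∈ F (t + 1)).card := by
    intro t
    rw [hb]
    split_ifs with h
    · exact hcount t h
    · push Not at h
      rw [h]
      have : (S.filter fun l => l ∈ (⊥ : Submodule ℂ (VV n))) = ∅ := by
        rw [Finset.filter_eq_empty_iff]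
        intro x hx hx'
        rw [Submodule.mem_bot] at hx'
        exact h0 (hx' ▸ hx)
      rw [this]
      simp
  rw [h1, h2, Finset.mul_sum]
  calc _ ≤ (∑ t ∈ Finset.range N, (S.filter fun l => l ∈ F (t + 1)).card) +
        ∑ t ∈ Finset.range N, (if F (t + 1) ≠ ⊥ then 1 else 0) := by
        exact Nat.add_le_add_left h3 _
    _ = ∑ t ∈ Finset.range N, ((S.filter fun l => l ∈ F (t + 1)).card +
        (if F (t + 1) ≠ ⊥ then 1 else 0)) := by rw [Finset.sum_add_distrib]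
    _ ≤ _ := Finset.sum_le_sum fun t _ => h4 t


open scoped Classical in
theorem t_KLTREG : S_KLTREG := by
  intro hAEV n S d hd hcard hpw hrank hklt
  have h0S : (0 : VV n) ∉ S := by
    intro h0
    obtain ⟨x, hx, hx0⟩ : ∃ x ∈ S, x ≠ 0 := by
      by_contra hcon
      push Not at hcon
      have h1 : S ⊆ {0} := fun x hx => Finset.mem_singleton.2 (hcon x hx)
      have h2 := Finset.card_le_card h1
      rw [Finset.card_singleton] at h2
      omega
    have h3 := (hpw 0 h0 x hx (Ne.symm hx0)).ne_zero 0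
    exact h3 rfl
  obtain ⟨l0, hl0⟩ : ∃ l0, l0 ∈ S := by
    have : S.Nonempty := Finset.card_pos.1 (by omega)
    exact this
  obtain ⟨l1, hl1, hl10⟩ : ∃ l1 ∈ S, l0 ≠ l1 := by
    by_contra hcon
    push Not at hcon
    have h1 : S ⊆ {l0} := fun x hx => Finset.mem_singleton.2 (hcon x hx).symm
    have h2 := Finset.card_le_card h1
    rw [Finset.card_singleton] at h2
    omega
  obtain ⟨V', hV'⟩ : ∃ V', V' = Submodule.span ℂ (S : Set (VV n)) := ⟨_, rfl⟩
  rw [← hV'] at hrank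
  have hSV : ∀ l ∈ S, l ∈ V' := fun l hl => hV' ▸ Submodule.subset_span hl
  have hrank2 : 2 ≤ Module.finrank ℂ V' := by
    have h1 := hpw l0 hl0 l1 hl1 hl10
    have h2 := finrank_span_eq_card h1
    rw [Fintype.card_fin] at h2
    refine le_of_eq_of_le h2.symm ?_
    apply Submodule.finrank_mono
    rw [Submodule.span_le]
    rintro _ ⟨k, rfl⟩
    fin_cases k
    · exact hSV _ hl0
    · exact hSV _ hl1
  obtain ⟨r, hr⟩ : ∃ r, Module.finrank ℂ V' = r + 1 := ⟨Module.finrank ℂ V' - 1, by omega⟩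
  -- a basis
  obtain ⟨b, hb, hbs⟩ : ∃ b : Fin (r + 1) → VV n, LinearIndependent ℂ b ∧
      Submodule.span ℂ (Set.range b) = V' := by
    let B := Module.finBasisOfFinrankEq ℂ V' hr
    refine ⟨fun k => (B k : VV n), B.linearIndependent.map' V'.subtype (Submodule.ker_subtype _), ?_⟩
    have h1 : Set.range (fun k => (B k : VV n)) = V'.subtype '' (Set.range B) := by
      rw [← Set.range_comp]
      rfl
    rw [h1, Submodule.span_image, B.span_eq, Submodule.map_top, Submodule.range_subtype]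
  refine ⟨r, d - r - 1, b, pl l0 ^ (d - r - 1), by omega, hb,
    pow_ne_zero _ (pl_ne_zero fun h => h0S (h ▸ hl0)), ?_, by omega, ?_⟩
  · have := (pl_hom l0).pow (d - r - 1)
    rwa [one_mul] at this
  intro K _ _ X hX P
  have hlf : ∀ v : VV n, v ≠ 0 → lf X v ≠ 0 := (hAEV K n X hX).1
  have hb0 : ∀ k, b k ≠ 0 := fun k => hb.ne_zero k
  -- the scaling
  obtain ⟨k0, -, hk0⟩ := Finset.exists_min_image (Finset.univ : Finset (Fin (r + 1)))
    (fun k => P.ord (lf X (b k))) ⟨0, Finset.mem_univ _⟩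
  obtain ⟨c, hc⟩ : ∃ c : K, c = (lf X (b k0))⁻¹ := ⟨_, rfl⟩
  have hc0 : c ≠ 0 := hc ▸ inv_ne_zero (hlf _ (hb0 k0))
  have hcord : P.ord c = - P.ord (lf X (b k0)) := by rw [hc, P.ord_inv]
  let F : ℕ → Submodule ℂ (VV n) := fun t =>
    { carrier := {v | v ∈ V' ∧ Ge P t (c * lf X v)}
      add_mem' := by
        rintro v w ⟨hv, hv'⟩ ⟨hw, hw'⟩
        refine ⟨V'.add_mem hv hw, ?_⟩
        rw [lf_add, mul_add]
        exact hv'.add hw'
      zero_mem' := by
        refine ⟨V'.zero_mem, ?_⟩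
        rw [lf_zero, mul_zero]
        exact Ge.zero
      smul_mem' := by
        rintro a v ⟨hv, hv'⟩
        refine ⟨V'.smul_mem _ hv, ?_⟩
        rw [lf_smul, mul_left_comm]
        have := (Ge.const (P := P) a).mul hv'
        rwa [zero_add] at this }
  have hFmem : ∀ t v, v ∈ F t ↔ v ∈ V' ∧ Ge P t (c * lf X v) := fun t v => Iff.rfl
  have hFanti : Antitone F := by
    intro s t hst v hv
    rw [hFmem] at hv ⊢
    exact ⟨hv.1, hv.2.mono (by exact_mod_cast hst)⟩
  have hF0 : F 0 = V' := by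
    apply le_antisymm
    · intro v hv
      exact hv.1
    · rw [← hbs, Submodule.span_le]
      rintro _ ⟨k, rfl⟩
      change b k ∈ F 0
      rw [hFmem]
      refine ⟨hbs ▸ Submodule.subset_span ⟨k, rfl⟩, Or.inr ?_⟩
      rw [P.ord_mul hc0 (hlf _ (hb0 k)), hcord]
      have := hk0 k (Finset.mem_univ _)
      push_cast
      omega
  obtain ⟨N, hN⟩ : ∃ N, F N = ⊥ := by
    obtain ⟨N, hN⟩ := IsArtinian.monotone_stabilizes
      (⟨fun t => OrderDual.toDual (F t), fun s t hst => hFanti hst⟩ : ℕ →o (Submodule ℂ (VV n))ᵒᵈ)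
    refine ⟨N, ?_⟩
    rw [Submodule.eq_bot_iff]
    intro v hv
    by_contra hv0
    have h1 : F N = F (N + ((P.ord (c * lf X v)).toNat + 1)) := hN _ (by omega)
    rw [h1, hFmem] at hv
    rcases hv.2 with h | h
    · exact mul_ne_zero hc0 (hlf v hv0) h
    · push_cast at h
      omega
  have hF1 : ∀ t, F (t + 1) < V' := by
    intro t
    refine lt_of_le_of_ne (hF0 ▸ hFanti (Nat.zero_le _)) fun h => ?_
    have h1 : b k0 ∈ F (t + 1) := h ▸ hbs ▸ Submodule.subset_span ⟨k0, rfl⟩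
    rw [hFmem] at h1
    have h2 : c * lf X (b k0) = 1 := by rw [hc, inv_mul_cancel₀ (hlf _ (hb0 k0))]
    rw [h2] at h1
    rcases h1.2 with h3 | h3
    · exact one_ne_zero h3
    · rw [P.ord_one] at h3
      push_cast at h3
      omega
  obtain ⟨b', hb', hbs', hbF⟩ := adapted' N F hFanti hN (by rw [hF0]; exact hr)
  have hb'0 : ∀ k, b' k ≠ 0 := fun k => hb'.ne_zero k
  rw [hF0] at hbs'
  have hb'V : ∀ k, b' k ∈ V' := fun k => hbs' ▸ Submodule.subset_span ⟨k, rfl⟩
  have hν0 : ∀ v ∈ V', v ≠ 0 → 0 ≤ P.ord (c * lf X v) := by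
    intro v hv hv0
    have h1 : v ∈ F 0 := hF0 ▸ hv
    rw [hFmem] at h1
    rcases h1.2 with h | h
    · exact absurd h (mul_ne_zero hc0 (hlf v hv0))
    · simpa using h
  obtain ⟨ν, hν⟩ : ∃ ν : VV n → ℕ, ν = fun v => (P.ord (c * lf X v)).toNat := ⟨_, rfl⟩
  have hνV : ∀ v ∈ V', v ≠ 0 → (ν v : ℤ) = P.ord (c * lf X v) := by
    intro v hv hv0
    rw [hν]
    exact Int.toNat_of_nonneg (hν0 v hv hv0)
  have hνF : ∀ v ∈ V', v ≠ 0 → ∀ t, (v ∈ F t ↔ t ≤ ν v) := by
    intro v hv hv0 t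
    rw [hFmem]
    constructor
    · rintro ⟨-, h | h⟩
      · exact absurd h (mul_ne_zero hc0 (hlf v hv0))
      · rw [← hνV v hv hv0] at h
        exact_mod_cast h
    · intro h
      refine ⟨hv, Or.inr ?_⟩
      rw [← hνV v hv hv0]
      exact_mod_cast h
  have hcore := count_core N F hN S h0S (fun t ht => by
    have h1 := hklt (F (t + 1)) ht (hV' ▸ hF1 t)
    omega) b' hbF ν (fun k t => hνF _ (hb'V k) (hb'0 k) t)
    (fun l hl t => hνF l (hSV l hl) (fun h => h0S (h ▸ hl)) t) hb'0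
  -- the matrix
  have hcoord : ∀ k, ∃ g : Fin (r + 1) → ℂ, b' k = ∑ j, g j • b j := by
    intro k
    have h1 : b' k ∈ Submodule.span ℂ (Set.range b) := hbs ▸ hb'V k
    obtain ⟨g, hg⟩ := (Submodule.mem_span_range_iff_exists_fun ℂ).1 h1
    exact ⟨g, hg.symm⟩
  choose g hg using hcoord
  have hdet : (Matrix.of g).det ≠ 0 := by
    have h1 : LinearIndependent ℂ (Matrix.of g).row := by
      rw [Fintype.linearIndependent_iff]
      intro a ha
      refine (Fintype.linearIndependent_iff.1 hb') a ?_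
      have h2 : ∑ k, a k • b' k = ∑ j, (∑ k, a k * g k j) • b j := by
        simp_rw [hg, Finset.smul_sum, Finset.sum_smul, smul_smul]
        exact Finset.sum_comm
      rw [h2]
      refine Finset.sum_eq_zero fun j _ => ?_
      have h3 := congrFun ha j
      rw [Finset.sum_apply] at h3
      have h4 : ∑ k, a k * g k j = 0 := h3
      rw [h4, zero_smul]
    rw [Matrix.linearIndependent_rows_iff_isUnit, Matrix.isUnit_iff_isUnit_det] at h1
    exact h1.ne_zero
  have hYb : ∀ k, ∑ j, algebraMap ℂ K (Matrix.of g k j) * lf X (b j) = lf X (b' k) := by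
    intro k
    rw [hg k, lf_sum]
    rfl
  refine ⟨Matrix.of g, c, fun k => c * lf X (b' k), hdet, hc0, fun k => by rw [hYb], fun k =>
    mul_ne_zero hc0 (hlf _ (hb'0 k)), fun k => hν0 _ (hb'V k) (hb'0 k), ?_⟩
  have hS' : ∑ l ∈ S, P.ord (c * lf X l) = ((∑ l ∈ S, ν l : ℕ) : ℤ) := by
    push_cast
    exact Finset.sum_congr rfl fun l hl => (hνV l (hSV l hl) fun h => h0S (h ▸ hl)).symm
  have hB' : ∑ k, P.ord (c * lf X (b' k)) = ((∑ k, ν (b' k) : ℕ) : ℤ) := by
    push_cast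
    exact Finset.sum_congr rfl fun k _ => (hνV _ (hb'V k) (hb'0 k)).symm
  have hif : (if ∃ k, 0 < P.ord (c * lf X (b' k)) then (1 : ℤ) else 0) =
      ((if ∃ k, 0 < ν (b' k) then 1 else 0 : ℕ) : ℤ) := by
    have h1 : (∃ k, 0 < P.ord (c * lf X (b' k))) ↔ ∃ k, 0 < ν (b' k) := by
      refine exists_congr fun k => ?_
      rw [← hνV _ (hb'V k) (hb'0 k)]
      exact_mod_cast Iff.rfl
    by_cases h2 : ∃ k, 0 < ν (b' k)
    · rw [if_pos h2, if_pos (h1.2 h2)]
      rfl
    · rw [if_neg h2, if_neg fun h3 => h2 (h1.1 h3)]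
      rfl
  have hQ : 0 ≤ P.ord (c ^ (d - r - 1) * MvPolynomial.aeval X (pl l0 ^ (d - r - 1))) := by
    rw [map_pow, aeval_pl, ← mul_pow, P.ord_pow]
    exact mul_nonneg (Int.natCast_nonneg _) (hν0 _ (hSV _ hl0) fun h => h0S (h ▸ hl0))
  rw [hS', hB', hif]
  have h5 : (((∑ l ∈ S, ν l) + (if ∃ k, 0 < ν (b' k) then 1 else 0) : ℕ) : ℤ) ≤
      ((2 * ∑ k, ν (b' k) : ℕ) : ℤ) := by exact_mod_cast hcore
  rw [Nat.cast_add, Nat.cast_mul] at h5
  have h6 : ((2 : ℕ) : ℤ) = 2 := rfl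
  rw [h6] at h5
  linarith

end Pool.Agent.J4H2.PL
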