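import Pool.Agent.J4H2.PL.Lf

/-!
# Project PL: job RATK
-/

set_option autoImplicit false

open FF

namespace Pool.Agent.J4H2.PL

open Pool.Agent.W602.GT Pool.Agent.W603.LV Pool.Agent.J4H13.BC Pool.Agent.J4H13.PL

/-- linearly independent rows have a nonzero minor -/
lemma exists_minor {m d : ℕ} (N : Matrix (Fin d) (Fin m) ℂ) (hN : LinearIndependent ℂ N.row) :
    ∃ J : Fin d → Fin m, Function.Injective J ∧ (N.submatrix id J).det ≠ 0 := by
  have h1 : N.rank = d := by simpa using hN.rank_matrix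
  rw [Matrix.rank_eq_finrank_span_cols] at h1
  obtain ⟨f, hf, -, hfl⟩ := Submodule.exists_fun_fin_finrank_span_eq ℂ (Set.range N.col)
  choose J hJ using fun i : Fin d => hf (Fin.cast h1.symm i)
  have h2 : LinearIndependent ℂ fun i : Fin d => N.col (J i) := by
    have h3 : (fun i : Fin d => N.col (J i)) = f ∘ Fin.cast h1.symm := by
      funext i
      exact hJ i
    rw [h3]
    exact hfl.comp _ (Fin.cast_injective _)
  refine ⟨J, ?_, ?_⟩
  · intro i j hij
    exact h2.injective (by simp only [hij])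
  · have h3 : (N.submatrix id J).col = fun i : Fin d => N.col (J i) := rfl
    have h4 : LinearIndependent ℂ (N.submatrix id J).col := by
      rw [h3]
      exact h2
    rw [Matrix.linearIndependent_cols_iff_isUnit, Matrix.isUnit_iff_isUnit_det] at h4
    exact h4.ne_zero

/-- determinants of matrices of linear forms are homogeneous -/
lemma det_hom {σ : Type} {d : ℕ} (M : Matrix (Fin d) (Fin d) (MvPolynomial σ ℂ))
    (hM : ∀ i j, (M i j).IsHomogeneous 1) : M.det.IsHomogeneous d := by
  rw [Matrix.det_apply]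
  refine MvPolynomial.IsHomogeneous.sum _ _ _ fun τ _ => ?_
  have h1 : (∏ i, M (τ i) i).IsHomogeneous d := by
    have h2 := MvPolynomial.IsHomogeneous.prod (Finset.univ : Finset (Fin d))
      (fun i => M (τ i) i) (fun _ => 1) (fun i _ => hM (τ i) i)
    simpa using h2
  rw [Units.smul_def, zsmul_eq_mul]
  have h3 : (((Equiv.Perm.sign τ : ℤˣ) : ℤ) : MvPolynomial σ ℂ) =
      MvPolynomial.C (((Equiv.Perm.sign τ : ℤˣ) : ℤ) : ℂ) := by
    rw [map_intCast]
  rw [h3]
  have h4 := (MvPolynomial.isHomogeneous_C σ (((Equiv.Perm.sign τ : ℤˣ) : ℤ) : ℂ)).mul h1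
  rwa [zero_add] at h4

lemma aux_ne_zero {W : Type} [AddCommGroup W] [Module ℂ W] {v w : W}
    (h : 2 ≤ Module.finrank ℂ (Submodule.span ℂ ({v, w} : Set W))) : v ≠ 0 := by
  rintro rfl
  rw [Submodule.span_insert_zero] at h
  by_cases hw : w = 0
  · rw [hw, Submodule.span_zero_singleton, finrank_bot] at h
    omega
  · rw [finrank_span_singleton hw] at h
    omega

/-- solving linear systems in a subfield -/
lemma solve {K : Type} [Field K] [Algebra ℂ K] (L : IntermediateField ℂ K) {d : ℕ}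
    (A : Matrix (Fin d) (Fin d) K) (hA : ∀ i j, A i j ∈ L) (hdet : A.det ≠ 0) (x : Fin d → K)
    (hx : ∀ k, ∑ i, A k i * x i ∈ L) : ∀ i, x i ∈ L := by
  obtain ⟨B, hB⟩ : ∃ B : Matrix (Fin d) (Fin d) L, B = Matrix.of fun i j => ⟨A i j, hA i j⟩ :=
    ⟨_, rfl⟩
  have hBA : L.val.toRingHom.mapMatrix B = A := by
    rw [hB]
    ext i j
    rfl
  have hBdet : B.det ≠ 0 := by
    intro h
    apply hdet
    rw [← hBA, ← RingHom.map_det, h, map_zero]
  have hBu : IsUnit B.det := hBdet.isUnit
  obtain ⟨y, hy⟩ : ∃ y : Fin d → L, y = fun k => ⟨∑ i, A k i * x i, hx k⟩ := ⟨_, rfl⟩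
  obtain ⟨z, hz⟩ : ∃ z : Fin d → L, z = B⁻¹.mulVec y := ⟨_, rfl⟩
  have h1 : B.mulVec z = y := by
    rw [hz, Matrix.mulVec_mulVec, Matrix.mul_nonsing_inv _ hBu, Matrix.one_mulVec]
  have h2 : A.mulVec (fun i => (z i : K)) = A.mulVec x := by
    funext k
    have h3 := congrArg (fun w : L => (w : K)) (congrFun h1 k)
    rw [hy] at h3
    have h4 : ((B.mulVec z k : L) : K) = ∑ i, A k i * (z i : K) := by
      change L.val (B.mulVec z k) = _
      unfold Matrix.mulVec dotProduct
      rw [map_sum]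
      refine Finset.sum_congr rfl fun i _ => ?_
      rw [map_mul, hB]
      rfl
    rw [h4] at h3
    exact h3
  have hAu : IsUnit A := (Matrix.isUnit_iff_isUnit_det A).2 hdet.isUnit
  have h3 := Matrix.mulVec_injective_of_isUnit hAu h2
  intro i
  rw [← congrFun h3 i]
  exact (z i).2


theorem t_RATK : S_RATK := by
  classical
  intro hAEV hLOV K _ _ n X hX d hd l l' hrk
  have hlf : ∀ v : VV n, v ≠ 0 → lf X v ≠ 0 := (hAEV K n X hX).1
  have hl : ∀ k, l k ≠ 0 ∧ l' k ≠ 0 := by
    intro k
    have h1 := hrk {k} (Finset.singleton_nonempty k)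
    rw [Finset.card_singleton, Finset.coe_singleton, Set.image_singleton, Set.image_singleton,
      Set.singleton_union] at h1
    refine ⟨aux_ne_zero h1, ?_⟩
    rw [Set.pair_comm] at h1
    exact aux_ne_zero h1
  obtain ⟨φ, -, hφ⟩ := hLOV d (VV n) l l' ∅ (by simp) hrk
  -- the point `x₀`
  obtain ⟨x₀, hx₀⟩ : ∃ x₀ : Fin (n + 1) → ℂ, ∀ v, φ v = ∑ j, v j * x₀ j := by
    refine ⟨fun j => φ (fun i => if j = i then 1 else 0), fun v => ?_⟩
    rw [LinearMap.pi_apply_eq_sum_univ φ v]
    rfl
  obtain ⟨Np, hNp⟩ : ∃ Np : Matrix (Fin d) (Fin (n + 1)) ℂ, Np = Matrix.of fun k j =>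
    φ (l' k) * l k j - φ (l k) * l' k j := ⟨_, rfl⟩
  have hNrow : LinearIndependent ℂ Np.row := by
    have h1 : Np.row = fun k => φ (l' k) • l k - φ (l k) • l' k := by
      rw [hNp]
      rfl
    rw [h1]
    exact hφ
  obtain ⟨J, hJ, hJdet⟩ := exists_minor Np hNrow
  obtain ⟨Mp, hMp⟩ : ∃ Mp : Matrix (Fin d) (Fin d) (MvPolynomial (Fin (n + 1)) ℂ), Mp =
    Matrix.of fun k i => pl (l' k) * MvPolynomial.C (l k (J i)) -
      pl (l k) * MvPolynomial.C (l' k (J i)) := ⟨_, rfl⟩
  have hMhom : Mp.det.IsHomogeneous d := by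
    apply det_hom
    intro k i
    rw [hMp]
    have h1 := (pl_hom (l' k)).mul (MvPolynomial.isHomogeneous_C (Fin (n + 1)) (l k (J i)))
    have h2 := (pl_hom (l k)).mul (MvPolynomial.isHomogeneous_C (Fin (n + 1)) (l' k (J i)))
    rw [add_zero] at h1 h2
    exact h1.sub h2
  have hM0 : Mp.det ≠ 0 := by
    intro h
    apply hJdet
    have h1 : (MvPolynomial.eval x₀).mapMatrix Mp = Np.submatrix id J := by
      rw [hMp, hNp]
      ext k i
      simp only [RingHom.mapMatrix_apply, Matrix.map_apply, Matrix.of_apply, map_sub, map_mul,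
        MvPolynomial.eval_C, eval_pl, Matrix.submatrix_apply, id, hx₀]
    rw [← h1, ← RingHom.map_det, h, map_zero]
  obtain ⟨s, hs⟩ : ∃ s : Fin d → K, s = fun k => lf X (l k) / lf X (l' k) := ⟨_, rfl⟩
  have hlk : ∀ k, lf X (l k) ≠ 0 := fun k => hlf _ (hl k).1
  have hl'k : ∀ k, lf X (l' k) ≠ 0 := fun k => hlf _ (hl k).2
  have hsk : ∀ k, s k * lf X (l' k) = lf X (l k) := by
    intro k
    rw [hs]
    exact div_mul_cancel₀ _ (hl'k k)
  have hs0 : ∀ k, s k ≠ 0 := by
    intro k h
    apply hlk k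
    rw [← hsk k, h, zero_mul]
  obtain ⟨A, hA⟩ : ∃ A : Matrix (Fin d) (Fin (n + 1)) K, A = Matrix.of fun k j =>
    algebraMap ℂ K (l k j) - s k * algebraMap ℂ K (l' k j) := ⟨_, rfl⟩
  have hAdet : (A.submatrix id J).det ≠ 0 := by
    intro h
    apply (hAEV K n X hX).2 d Mp.det hMhom hM0
    have h1 : (MvPolynomial.aeval X : MvPolynomial (Fin (n + 1)) ℂ →ₐ[ℂ] K).toRingHom.mapMatrix Mp =
        Matrix.of fun k i => lf X (l' k) * A.submatrix id J k i := by
      rw [hMp, hA]
      ext k i
      simp only [RingHom.mapMatrix_apply, Matrix.map_apply, Matrix.of_apply, Matrix.submatrix_apply,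
        id, AlgHom.toRingHom_eq_coe, RingHom.coe_coe, map_sub, map_mul, aeval_pl]
      have h2 : ∀ a : ℂ, (MvPolynomial.aeval X) (MvPolynomial.C a) = algebraMap ℂ K a :=
        fun a => MvPolynomial.algHom_C _ a
      rw [h2, h2, ← hsk k]
      ring
    have h2 := (MvPolynomial.aeval X : MvPolynomial (Fin (n + 1)) ℂ →ₐ[ℂ] K).toRingHom.map_det Mp
    rw [h1, Matrix.det_mul_column, h, mul_zero] at h2
    exact h2
  have hAX : ∀ k, ∑ j, A k j * X j = 0 := by
    intro k
    have h1 : ∑ j, A k j * X j = lf X (l k) - s k * lf X (l' k) := by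
      unfold lf
      rw [Finset.mul_sum, ← Finset.sum_sub_distrib]
      refine Finset.sum_congr rfl fun j _ => ?_
      rw [hA, Matrix.of_apply]
      ring
    rw [h1, hsk, sub_self]
  -- the number of forms
  have hdn : d + 1 ≤ n + 1 := by
    have h1 := hrk Finset.univ ⟨⟨0, hd⟩, Finset.mem_univ _⟩
    rw [Finset.card_univ, Fintype.card_fin] at h1
    refine h1.trans ((Submodule.finrank_le _).trans ?_)
    rw [Module.finrank_fin_fun]
  obtain ⟨i₀, hi₀⟩ : ∃ i₀ : Fin (n + 1), ∀ k, J k ≠ i₀ := by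
    by_contra hcon
    push Not at hcon
    have h1 := Fintype.card_le_of_surjective J hcon
    rw [Fintype.card_fin, Fintype.card_fin] at h1
    omega
  have hXi : ∀ i, X i ≠ 0 := by
    intro i
    have h1 := hlf (Pi.single i 1) (by
      intro h
      have := congrFun h i
      rw [Pi.single_eq_same, Pi.zero_apply] at this
      exact one_ne_zero this)
    have h2 : lf X (Pi.single i 1) = X i := by
      unfold lf
      rw [Finset.sum_eq_single i]
      · rw [Pi.single_eq_same, map_one, one_mul]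
      · intro j _ hj
        rw [Pi.single_eq_of_ne hj, map_zero, zero_mul]
      · intro h
        exact absurd (Finset.mem_univ i) h
    rwa [h2] at h1
  obtain ⟨k₀, hk₀⟩ : ∃ k₀ : Fin d, k₀ = ⟨0, hd⟩ := ⟨_, rfl⟩
  let α := {k : Fin d // k ≠ k₀} ⊕ {i : Fin (n + 1) // (∀ k, J k ≠ i) ∧ i ≠ i₀}
  let ya : α → K := Sum.elim (fun k => s k.1) (fun i => X i.1 / X i₀)
  have hcα : Fintype.card α + 1 = n := by
    have h1 : Fintype.card {k : Fin d // k ≠ k₀} = d - 1 := by
      rw [Fintype.card_subtype_compl, Fintype.card_fin, Fintype.card_subtype_eq]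
    have h2 : Fintype.card {i : Fin (n + 1) // (∀ k, J k ≠ i) ∧ i ≠ i₀} = n - d := by
      rw [Fintype.card_subtype]
      have h3 : (Finset.univ.filter fun i : Fin (n + 1) => (∀ k, J k ≠ i) ∧ i ≠ i₀) =
          (insert i₀ (Finset.univ.image J))ᶜ := by
        ext i
        simp only [Finset.mem_filter, Finset.mem_univ, true_and, Finset.mem_compl,
          Finset.mem_insert, Finset.mem_image, not_or, not_exists]
        tauto
      rw [h3, Finset.card_compl, Fintype.card_fin, Finset.card_insert_of_notMem,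
        Finset.card_image_of_injective _ hJ, Finset.card_univ, Fintype.card_fin]
      · omega
      · intro h
        obtain ⟨k, -, hk⟩ := Finset.mem_image.1 h
        exact hi₀ k hk
    change Fintype.card ({k : Fin d // k ≠ k₀} ⊕ {i : Fin (n + 1) // (∀ k, J k ≠ i) ∧ i ≠ i₀}) +
      1 = n
    rw [Fintype.card_sum, h1, h2]
    omega
  let y : Fin (Fintype.card α) → K := ya ∘ (Fintype.equivFin α).symm
  have hyr : ∀ a : α, ya a ∈ Set.range y := fun a => ⟨Fintype.equivFin α a, by
    change ya ((Fintype.equivFin α).symm (Fintype.equivFin α a)) = ya a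
    rw [Equiv.symm_apply_apply]⟩
  have hys : ∀ k, k ≠ k₀ → s k ∈ Set.range y := fun k hk => hyr (Sum.inl ⟨k, hk⟩)
  have hyX : ∀ i, (∀ k, J k ≠ i) → i ≠ i₀ → X i / X i₀ ∈ Set.range y := fun i h1 h2 =>
    hyr (Sum.inr ⟨i, h1, h2⟩)
  have huprod : ∏ k, lf X (l' k) ∈ IntermediateField.adjoin ℂ (Set.range X) := by
    refine prod_mem fun k _ => ?_
    unfold lf
    refine sum_mem fun j _ => mul_mem ?_ ?_
    · exact (IntermediateField.adjoin ℂ (Set.range X)).algebraMap_mem _
    · exact IntermediateField.subset_adjoin _ _ ⟨j, rfl⟩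
  refine ⟨Fintype.card α, y, s k₀, ∏ k ∈ Finset.univ.erase k₀, s k, ∏ k, lf X (l' k), hcα.le, ?_,
    ?_, huprod, Finset.prod_ne_zero_iff.2 fun k _ => hl'k k, ?_, ?_⟩
  · refine prod_mem fun k hk => ?_
    exact IntermediateField.subset_adjoin _ _ (hys k (Finset.ne_of_mem_erase hk))
  · exact Finset.prod_ne_zero_iff.2 fun k _ => hs0 k
  · rw [Finset.prod_erase_mul _ _ (Finset.mem_univ k₀), ← Finset.prod_pow,
      ← Finset.prod_mul_distrib]
    refine Finset.prod_congr rfl fun k _ => ?_
    rw [← hsk k]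
    ring
  · obtain ⟨L, hL⟩ : ∃ L, L = IntermediateField.adjoin ℂ (insert (s k₀) (Set.range y)) := ⟨_, rfl⟩
    rw [← hL]
    have hsL : ∀ k, s k ∈ L := by
      intro k
      rw [hL]
      by_cases hk : k = k₀
      · rw [hk]
        exact IntermediateField.subset_adjoin _ _ (Set.mem_insert _ _)
      · exact IntermediateField.subset_adjoin _ _ (Set.mem_insert_of_mem _ (hys k hk))
    have hAL : ∀ k j, A k j ∈ L := by
      intro k j
      rw [hA]
      exact sub_mem (L.algebraMap_mem _) (mul_mem (hsL k) (L.algebraMap_mem _))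
    have hxL : ∀ i, (∀ k, J k ≠ i) → X i / X i₀ ∈ L := by
      intro i hi
      by_cases h : i = i₀
      · rw [h, div_self (hXi i₀)]
        exact one_mem _
      · rw [hL]
        exact IntermediateField.subset_adjoin _ _ (Set.mem_insert_of_mem _ (hyX i hi h))
    have hxJ : ∀ i, X (J i) / X i₀ ∈ L := by
      refine solve L (A.submatrix id J) (fun k i => hAL k _) hAdet (fun i => X (J i) / X i₀)
        fun k => ?_
      have h1 : ∑ i, A k (J i) * (X (J i) / X i₀) =
          - ∑ j ∈ Finset.univ.filter (fun j => ∀ k, J k ≠ j), A k j * (X j / X i₀) := by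
        have h2 : ∑ j, A k j * (X j / X i₀) = 0 := by
          have h3 : ∑ j, A k j * (X j / X i₀) = (∑ j, A k j * X j) / X i₀ := by
            rw [Finset.sum_div]
            refine Finset.sum_congr rfl fun j _ => ?_
            ring
          rw [h3, hAX, zero_div]
        rw [← Finset.sum_filter_add_sum_filter_not Finset.univ (fun j => ∀ k, J k ≠ j)] at h2
        have h4 : ∑ j ∈ Finset.univ.filter (fun j => ¬ ∀ k, J k ≠ j), A k j * (X j / X i₀) =
            ∑ i, A k (J i) * (X (J i) / X i₀) := by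
          have h5 : (Finset.univ.filter fun j => ¬ ∀ k, J k ≠ j) = Finset.univ.image J := by
            ext j
            simp
          rw [h5, Finset.sum_image fun a _ b _ hab => hJ hab]
        rw [h4] at h2
        linear_combination h2
      change ∑ i, A k (J i) * (X (J i) / X i₀) ∈ L
      rw [h1]
      refine neg_mem (sum_mem fun j hj => mul_mem (hAL k j) (hxL j ?_))
      exact (Finset.mem_filter.1 hj).2
    have hxall : ∀ i, X i / X i₀ ∈ L := by
      intro i
      by_cases h : ∀ k, J k ≠ i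
      · exact hxL i h
      · push Not at h
        obtain ⟨k, hk⟩ := h
        rw [← hk]
        exact hxJ k
    have hX0 : X i₀ ∈ L := by
      have h1 := hxall 0
      rw [hX.1, one_div] at h1
      have h2 := inv_mem h1
      rwa [inv_inv] at h2
    intro k
    have h1 := mul_mem (hxall k) hX0
    rwa [div_mul_cancel₀ _ (hXi i₀)] at h1

end Pool.Agent.J4H2.PL
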