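import Pool.Agent.J4H13.PL.Jobs

/-!
# Project PL: linear forms and adapted bases
-/

set_option autoImplicit false

open FF

namespace Pool.Agent.J4H2.PL

open Pool.Agent.W602.GT Pool.Agent.W603.LV Pool.Agent.J4H13.BC Pool.Agent.J4H13.PL

variable {K : Type} [Field K] [Algebra ℂ K]

lemma lf_add {n : ℕ} (X : Fin (n + 1) → K) (v w : VV n) : lf X (v + w) = lf X v + lf X w := by
  unfold lf
  rw [← Finset.sum_add_distrib]
  refine Finset.sum_congr rfl fun i _ => ?_
  rw [Pi.add_apply, map_add, add_mul]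

lemma lf_smul {n : ℕ} (X : Fin (n + 1) → K) (c : ℂ) (v : VV n) :
    lf X (c • v) = algebraMap ℂ K c * lf X v := by
  unfold lf
  rw [Finset.mul_sum]
  refine Finset.sum_congr rfl fun i _ => ?_
  rw [Pi.smul_apply, smul_eq_mul, map_mul, mul_assoc]

/-- the linear map -/
noncomputable def lfL {n : ℕ} (X : Fin (n + 1) → K) : VV n →ₗ[ℂ] K where
  toFun := lf X
  map_add' := lf_add X
  map_smul' c v := by
    rw [lf_smul, RingHom.id_apply, Algebra.smul_def]

lemma lfL_apply {n : ℕ} (X : Fin (n + 1) → K) (v : VV n) : lfL X v = lf X v := rfl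

lemma lf_zero {n : ℕ} (X : Fin (n + 1) → K) : lf X 0 = 0 := (lfL X).map_zero

lemma lf_sum {n : ℕ} (X : Fin (n + 1) → K) {α : Type} (s : Finset α) (a : α → ℂ) (v : α → VV n) :
    lf X (∑ i ∈ s, a i • v i) = ∑ i ∈ s, algebraMap ℂ K (a i) * lf X (v i) := by
  rw [← lfL_apply, map_sum]
  refine Finset.sum_congr rfl fun i _ => ?_
  rw [map_smul, lfL_apply, Algebra.smul_def]

/-- the polynomial of a linear form -/
noncomputable def pl {n : ℕ} (v : VV n) : MvPolynomial (Fin (n + 1)) ℂ :=
  ∑ k, MvPolynomial.C (v k) * MvPolynomial.X k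

lemma pl_hom {n : ℕ} (v : VV n) : (pl v).IsHomogeneous 1 := by
  unfold pl
  refine MvPolynomial.IsHomogeneous.sum _ _ _ fun i _ => ?_
  have := (MvPolynomial.isHomogeneous_C (Fin (n + 1)) (v i)).mul
    (MvPolynomial.isHomogeneous_X ℂ i)
  simpa using this

lemma aeval_pl {n : ℕ} (X : Fin (n + 1) → K) (v : VV n) : MvPolynomial.aeval X (pl v) = lf X v := by
  unfold pl lf
  rw [map_sum]
  refine Finset.sum_congr rfl fun i _ => ?_
  rw [map_mul, MvPolynomial.aeval_X, MvPolynomial.algHom_C]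

lemma eval_pl {n : ℕ} (X : Fin (n + 1) → ℂ) (v : VV n) :
    MvPolynomial.eval X (pl v) = ∑ k, v k * X k := by
  unfold pl
  rw [map_sum]
  refine Finset.sum_congr rfl fun i _ => ?_
  rw [map_mul, MvPolynomial.eval_X, MvPolynomial.eval_C]

lemma pl_ne_zero {n : ℕ} {v : VV n} (hv : v ≠ 0) : pl v ≠ 0 := by
  classical
  intro h
  apply hv
  funext i
  have h1 := eval_pl (Pi.single i 1) v
  rw [h, map_zero] at h1
  rw [Finset.sum_eq_single i] at h1
  · rw [Pi.single_eq_same, mul_one] at h1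
    exact h1.symm
  · intro j _ hj
    rw [Pi.single_eq_of_ne hj, mul_zero]
  · intro h2
    exact absurd (Finset.mem_univ i) h2

/-- **Adapted bases of filtrations.** -/
lemma adapted {W : Type} [AddCommGroup W] [Module ℂ W] (N : ℕ) :
    ∀ F : ℕ → Submodule ℂ W, Antitone F → F N = ⊥ →
      ∃ B : Set W, B ⊆ F 0 ∧ LinearIndepOn ℂ id B ∧
        ∀ t, F t ≤ Submodule.span ℂ (B ∩ (F t : Set W)) := by
  induction N with
  | zero =>
    intro F hF hN
    refine ⟨∅, Set.empty_subset _, linearIndepOn_empty _ _, fun t => ?_⟩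
    have h1 : F t ≤ ⊥ := hN ▸ hF (Nat.zero_le t)
    exact h1.trans bot_le
  | succ N ih =>
    intro F hF hN
    obtain ⟨B, hB0, hB1, hB2⟩ := ih (fun t => F (t + 1)) (fun a b hab => hF (by omega)) hN
    have hB3 : B ⊆ (F 0 : Set W) := hB0.trans (hF (Nat.zero_le 1))
    refine ⟨hB1.extend hB3, hB1.extend_subset hB3, hB1.linearIndepOn_extend hB3, fun t => ?_⟩
    cases t with
    | zero =>
      have h1 : (F 0 : Set W) ⊆ Submodule.span ℂ (hB1.extend hB3) := by
        have := hB1.subset_span_extend hB3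
        simpa using this
      rw [Set.inter_eq_left.2 (hB1.extend_subset hB3)]
      exact h1
    | succ t =>
      refine (hB2 t).trans (Submodule.span_mono ?_)
      exact Set.inter_subset_inter_left _ (hB1.subset_extend hB3)

end Pool.Agent.J4H2.PL
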